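import Mathlib

set_option autoImplicit false

namespace Pool.Agent.Results.MP_26d357_co.Exact

open SimpleGraph Finset

open Classical in
/-- `KT G k s`: the subgraph of `G` induced on `s` is a `k`-tree. It is `K_{k+1}`, or arises from a
`k`-tree by adding a new vertex whose neighbours form a clique of size `k`. -/
inductive KT {V : Type} (G : SimpleGraph V) (k : ℕ) : Finset V → Prop
  | base (s : Finset V) : G.IsNClique (k + 1) s → KT G k s
  | step (s : Finset V) (x : V) : KT G k s → x ∉ s → G.IsNClique k (s.filter (G.Adj x)) →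
      KT G k (insert x s)

variable {V : Type} {G : SimpleGraph V} {k : ℕ}

open Classical

lemma clique_le {s : Finset V} (h : KT G k s) :
    ∀ Q ⊆ s, G.IsClique (Q : Set V) → Q.card ≤ k + 1 := by
  induction h with
  | base s h => exact fun Q hQ _ => h.2 ▸ card_le_card hQ
  | step s x _ hx hC ih =>
    intro Q hQ hc
    by_cases hxQ : x ∈ Q
    · have : Q ⊆ insert x (s.filter (G.Adj x)) := fun w hw => by
        by_cases e : w = x
        · simp [e]
        · have := hQ hw
          simp only [mem_insert, e, false_or, mem_filter] at this ⊢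
          exact ⟨this, hc hxQ hw (Ne.symm e)⟩
      exact (card_le_card this).trans ((card_insert_le _ _).trans (by rw [hC.2]))
    · exact ih Q ((subset_insert_iff_of_notMem hxQ).1 hQ) hc

/-- two adjacent vertices outside a `k`-clique cannot both see all of it -/
lemma no_two {s C : Finset V} (h : KT G k s) (hC : G.IsNClique k C) (hCs : C ⊆ s) {v w : V}
    (hv : v ∈ s) (hw : w ∈ s) (hvw : G.Adj v w) (h1 : ∀ c ∈ C, G.Adj v c) (h2 : ∀ c ∈ C, G.Adj w c) :
    False := by
  have a1 := hC.insert h2
  have a2 := a1.insert (a := v) (fun b hb => by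
    rcases mem_insert.1 hb with rfl | hb
    · exact hvw
    · exact h1 b hb)
  have := clique_le h _ (insert_subset hv (insert_subset hw hCs)) a2.1
  rw [a2.2] at this
  omega

/-- `N[v] ∩ s ⊆ N[w]` -/
def Dom (G : SimpleGraph V) (s : Finset V) (v w : V) : Prop := ∀ z ∈ s, G.Adj v z → z = w ∨ G.Adj w z

lemma count {s : Finset V} (h : KT G k s) : ∀ v ∈ s, ∀ Q ⊆ s, G.IsClique (Q : Set V) → v ∈ Q →
    (Q.filter fun w => ¬ Dom G s v w).card + k ≤ (s.filter (G.Adj v)).card := by
  induction h with
  | base s h =>
    intro v hv Q hQ _ _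
    have e1 : (Q.filter fun w => ¬ Dom G s v w) = ∅ := filter_eq_empty_iff.2 fun w hw hn =>
      hn fun z hz _ => by
        by_cases e : z = w
        · exact Or.inl e
        · exact Or.inr (h.1 (hQ hw) hz (Ne.symm e))
    have e2 : s.erase v ⊆ s.filter (G.Adj v) := fun z hz =>
      mem_filter.2 ⟨mem_of_mem_erase hz, h.1 hv (mem_of_mem_erase hz) (ne_of_mem_erase hz).symm⟩
    have := card_le_card e2
    rw [card_erase_of_mem hv, h.2] at this
    simpa [e1] using this
  | step s x hs hx hC ih =>
    intro v hv Q hQ hc hvQ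
    rcases mem_insert.1 hv with rfl | hv
    · have e1 : (Q.filter fun w => ¬ Dom G (insert v s) v w) = ∅ :=
        filter_eq_empty_iff.2 fun w hw hn => hn fun z hz hvz => by
          by_cases e : z = w
          · exact Or.inl e
          by_cases e' : w = v
          · exact Or.inr (e' ▸ hvz)
          have h1 : z ∈ s := (mem_insert.1 hz).resolve_left hvz.ne'
          have h2 : w ∈ s := (mem_insert.1 (hQ hw)).resolve_left e'
          exact Or.inr (hC.1 (by simp [h2, hc hvQ hw (Ne.symm e')]) (by simp [h1, hvz]) (Ne.symm e))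
      have := card_le_card (filter_subset_filter (G.Adj v) (subset_insert v s))
      rw [hC.2] at this
      simpa [e1] using this
    · have hvx : v ≠ x := fun e => hx (e ▸ hv)
      have hQ' : Q.erase x ⊆ s := fun w hw =>
        (mem_insert.1 (hQ (mem_of_mem_erase hw))).resolve_left (ne_of_mem_erase hw)
      have h0 := ih v hv (Q.erase x) hQ' (hc.subset (by simp)) (mem_erase.2 ⟨hvx, hvQ⟩)
      by_cases ha : G.Adj v x
      · rw [filter_insert, if_pos ha, card_insert_of_notMem (by simp [hx])]
        have h1 : (Q.filter fun w => w = x ∨ (Dom G s v w ∧ ¬ G.Adj w x)).card ≤ 1 := by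
          refine card_le_one.2 fun a ha' b hb' => ?_
          obtain ⟨a1, a2⟩ := mem_filter.1 ha'
          obtain ⟨b1, b2⟩ := mem_filter.1 hb'
          by_contra hab
          have hadj := hc a1 b1 hab
          have see : ∀ w, Dom G s v w → ¬ G.Adj w x → w ∈ Q → w ≠ x →
              ∀ c ∈ s.filter (G.Adj x), G.Adj w c := by
            intro w d1 d2 d3 d4 c hc'
            obtain ⟨c1, c2⟩ := mem_filter.1 hc'
            by_cases e : c = v
            · subst e
              exact hc d3 hvQ (fun e => d2 (e ▸ ha))
            · rcases d1 c c1 (hC.1 (by simp [hv, ha.symm]) hc' (Ne.symm e)) with rfl | h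
              · exact absurd c2.symm d2
              · exact h
          rcases a2 with rfl | a2 <;> rcases b2 with rfl | b2
          · exact hab rfl
          · exact b2.2 hadj.symm
          · exact a2.2 hadj
          · have ax : a ≠ x := fun e => b2.2 (e ▸ hadj.symm)
            have bx : b ≠ x := fun e => a2.2 (e ▸ hadj)
            exact no_two hs hC (filter_subset _ _) (hQ' (mem_erase.2 ⟨ax, a1⟩))
              (hQ' (mem_erase.2 ⟨bx, b1⟩)) hadj (see a a2.1 a2.2 a1 ax) (see b b2.1 b2.2 b1 bx)
        have h2 : (Q.filter fun w => ¬ Dom G (insert x s) v w) ⊆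
            ((Q.erase x).filter fun w => ¬ Dom G s v w) ∪
              (Q.filter fun w => w = x ∨ (Dom G s v w ∧ ¬ G.Adj w x)) := by
          intro w hw
          obtain ⟨w1, w2⟩ := mem_filter.1 hw
          simp only [mem_union, mem_filter, mem_erase]
          by_contra hn
          push Not at hn
          obtain ⟨n1, n2⟩ := hn.2 w1
          have n3 := hn.1 ⟨n1, w1⟩
          refine w2 fun z hz hvz => ?_
          rcases mem_insert.1 hz with rfl | hz
          · exact Or.inr (n2 n3)
          · exact n3 z hz hvz
        have := (card_le_card h2).trans (card_union_le _ _)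
        omega
      · rw [filter_insert, if_neg ha]
        refine le_trans (Nat.add_le_add_right (card_le_card fun w hw => ?_) _) h0
        obtain ⟨w1, w2⟩ := mem_filter.1 hw
        refine mem_filter.2 ⟨mem_erase.2 ⟨fun e => ha (hc hvQ (e ▸ w1) hvx), w1⟩,
          fun d => w2 fun z hz hvz => ?_⟩
        rcases mem_insert.1 hz with rfl | hz
        · exact absurd hvz ha
        · exact d z hz hvz

lemma twins {s : Finset V} (h : KT G k s) : ∀ v ∈ s, ∀ w ∈ s, G.Adj v w → Dom G s v w → Dom G s w v →
    ∀ z ∈ s, z = v ∨ G.Adj v z := by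
  induction h with
  | base s h =>
    intro v hv w _ _ _ _ z hz
    by_cases e : z = v
    · exact Or.inl e
    · exact Or.inr (h.1 hv hz (Ne.symm e))
  | step s x hs hx hC ih =>
    have new : ∀ w ∈ s, G.Adj x w → ¬ Dom G (insert x s) w x := by
      intro w hw hxw d
      have h1 := count hs w hw {w} (by simpa using hw) (by simp) (by simp)
      have h2 : s.filter (G.Adj w) ⊆ (s.filter (G.Adj x)).erase w := fun z hz => by
        obtain ⟨z1, z2⟩ := mem_filter.1 hz
        refine mem_erase.2 ⟨z2.ne', mem_filter.2 ⟨z1, ?_⟩⟩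
        exact (d z (mem_insert_of_mem z1) z2).resolve_left fun e => hx (e ▸ z1)
      have h3 := card_le_card h2
      have hm : w ∈ s.filter (G.Adj x) := mem_filter.2 ⟨hw, hxw⟩
      have := card_pos.2 ⟨w, hm⟩
      rw [card_erase_of_mem hm, hC.2] at h3
      rw [hC.2] at this
      omega
    intro v hv0 w hw0 hvw d1 d2
    rcases mem_insert.1 hv0 with rfl | hv
    · exact absurd d2 (new w ((mem_insert.1 hw0).resolve_left hvw.ne') hvw)
    rcases mem_insert.1 hw0 with rfl | hw
    · exact absurd d1 (new v hv hvw.symm)
    have d1' : Dom G s v w := fun z hz => d1 z (mem_insert_of_mem hz)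
    have d2' : Dom G s w v := fun z hz => d2 z (mem_insert_of_mem hz)
    have u1 := ih v hv w hw hvw d1' d2'
    have u2 := ih w hw v hv hvw.symm d2' d1'
    intro z hz
    rcases mem_insert.1 hz with rfl | hz
    · right
      by_contra hn
      have hn' : ¬ G.Adj w z := fun a =>
        (d2 z (mem_insert_self _ _) a).elim (fun e => hx (e ▸ hv)) hn
      refine no_two hs hC (filter_subset _ _) hv hw hvw (fun c hc => ?_) (fun c hc => ?_)
      · obtain ⟨c1, c2⟩ := mem_filter.1 hc
        exact (u1 c c1).resolve_left fun e => hn (e ▸ c2.symm)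
      · obtain ⟨c1, c2⟩ := mem_filter.1 hc
        exact (u2 c c1).resolve_left fun e => hn' (e ▸ c2.symm)
    · exact u1 z hz

lemma colour (S : Set V) (t : ℕ)
    (hS : ∀ Q : Finset V, (Q : Set V) ⊆ S → G.IsClique (Q : Set V) → Q.card ≤ t + 1)
    {s : Finset V} (h : KT G k s) :
    ∃ c : V → Fin (t + 1), ∀ u ∈ s, ∀ v ∈ s, u ∈ S → v ∈ S → G.Adj u v → c u ≠ c v := by
  induction h with
  | base s h =>
    have h1 := hS (s.filter (· ∈ S)) (fun z hz => (mem_filter.1 hz).2) (h.1.subset (coe_subset.2 (filter_subset _ _)))
    obtain ⟨e⟩ : Nonempty ((s.filter (· ∈ S)) ↪ Fin (t + 1)) :=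
      Function.Embedding.nonempty_of_card_le (by simpa using h1)
    refine ⟨fun v => if hv : v ∈ s.filter (· ∈ S) then e ⟨v, hv⟩ else 0, fun u hu v hv u1 v1 a => ?_⟩
    simp only [dif_pos (mem_filter.2 ⟨hu, u1⟩), dif_pos (mem_filter.2 ⟨hv, v1⟩)]
    exact fun e' => a.ne (congrArg Subtype.val (e.injective e'))
  | step s x _ hx hC ih =>
    obtain ⟨c, hc⟩ := ih
    by_cases hxS : x ∈ S
    · let N := (s.filter (G.Adj x)).filter (· ∈ S)
      have hN : N.card ≤ t := by
        have h1 := hS (insert x N) (by
          intro z hz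
          rcases mem_insert.1 hz with rfl | hz
          · exact hxS
          · exact (mem_filter.1 hz).2) (by
          rw [coe_insert]
          exact (hC.1.subset (coe_subset.2 (filter_subset _ _))).insert fun b hb _ =>
            (mem_filter.1 (mem_filter.1 hb).1).2)
        rw [card_insert_of_notMem (by simp [N])] at h1
        omega
      obtain ⟨j, hj⟩ : ∃ j : Fin (t + 1), j ∉ N.image c := by
        by_contra hn
        push Not at hn
        have := (card_le_card (fun j _ => hn j : univ ⊆ N.image c)).trans card_image_le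
        simp at this
        omega
      have hs : ∀ u ∈ s, Function.update c x j u = c u := fun u hu =>
        Function.update_of_ne (fun e : u = x => hx (e ▸ hu)) _ _
      refine ⟨Function.update c x j, fun u hu' v hv' u1 v1 a => ?_⟩
      rcases mem_insert.1 hu' with hu | hu <;> rcases mem_insert.1 hv' with hv | hv
      · exact absurd (hu.trans hv.symm) a.ne
      · rw [hs v hv, hu, Function.update_self]
        exact fun e => hj (mem_image.2 ⟨v, by simp [N, hv, v1, hu ▸ a], e.symm⟩)
      · rw [hs u hu, hv, Function.update_self]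
        exact fun e => hj (mem_image.2 ⟨u, by simp [N, hu, u1, hv ▸ a.symm], e⟩)
      · rw [hs u hu, hs v hv]
        exact hc u hu v hv u1 v1 a
    · refine ⟨c, fun u hu v hv u1 v1 a => hc u ?_ v ?_ u1 v1 a⟩
      · exact (mem_insert.1 hu).resolve_left fun e => hxS (e ▸ u1)
      · exact (mem_insert.1 hv).resolve_left fun e => hxS (e ▸ v1)

lemma ncard_eq [Fintype V] (v : V) : (G.neighborSet v).ncard = (univ.filter (G.Adj v)).card := by
  rw [← Set.ncard_coe_finset]
  congr 1
  ext; simp

lemma upper [Fintype V] (t : ℕ) (h : KT G k univ) (hn : k + t + 2 ≤ Fintype.card V) :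
    (G.induce {v | (G.neighborSet v).ncard = k + t}).Colorable (t + 1) := by
  obtain ⟨c, hc⟩ := colour {v | (G.neighborSet v).ncard = k + t} t (by
    intro Q hQ hcl
    rcases Q.eq_empty_or_nonempty with rfl | ⟨v, hv⟩
    · simp
    have dv : (univ.filter (G.Adj v)).card = k + t := (ncard_eq v).symm.trans (hQ hv)
    have h1 := count h v (mem_univ _) Q (subset_univ _) hcl hv
    have h2 : Q.erase v ⊆ Q.filter fun w => ¬ Dom G univ v w := by
      intro w hw
      obtain ⟨w1, w2⟩ := mem_erase.1 hw
      refine mem_filter.2 ⟨w2, fun d => ?_⟩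
      have dw : (univ.filter (G.Adj w)).card = k + t := (ncard_eq w).symm.trans (hQ w2)
      have a := hcl hv w2 w1.symm
      have e : insert v (univ.filter (G.Adj v)) = insert w (univ.filter (G.Adj w)) := by
        apply eq_of_subset_of_card_le
        · intro z hz
          simp only [mem_insert, mem_filter, mem_univ, true_and] at hz ⊢
          rcases hz with rfl | hz
          · exact Or.inr a.symm
          · exact d z (mem_univ _) hz
        · rw [card_insert_of_notMem (by simp), card_insert_of_notMem (by simp), dv, dw]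
      have d' : Dom G univ w v := fun z _ hz => by
        have : z ∈ insert v (univ.filter (G.Adj v)) := by rw [e]; simp [hz]
        simpa using this
      have := twins h v (mem_univ _) w (mem_univ _) a d d'
      have h3 : (univ : Finset V) ⊆ insert v (univ.filter (G.Adj v)) := fun z hz => by
        simpa using this z hz
      have h4 := (card_le_card h3).trans (card_insert_le _ _)
      rw [card_univ] at h4
      omega
    have h3 := card_le_card h2
    rw [card_erase_of_mem hv] at h3
    omega) h
  exact ⟨Coloring.mk (fun v => c v.1) fun {u v} a =>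
    hc u.1 (mem_univ _) v.1 (mem_univ _) u.2 v.2 a⟩

def ex (t : ℕ) : SimpleGraph (Fin (t + 2) ⊕ Fin (t + 1)) where
  Adj
    | .inl a, .inl b => a ≠ b
    | .inl a, .inr j => a ≠ j.castSucc
    | .inr j, .inl a => a ≠ j.castSucc
    | .inr _, .inr _ => False
  symm := ⟨by rintro (a | a) (b | b) h <;> first | exact h | exact Ne.symm h⟩
  loopless := ⟨by rintro (a | a) h <;> first | exact h | exact h rfl⟩

lemma step' {s s' C : Finset V} (x : V) (h : KT G k s) (hx : x ∉ s) (hC : G.IsNClique k C)
    (e1 : ∀ z, z ∈ C ↔ z ∈ s ∧ G.Adj x z) (e2 : ∀ z, z ∈ s' ↔ z = x ∨ z ∈ s) : KT G k s' := by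
  have a : s' = insert x s := by ext z; simp [e2]
  have b : C = s.filter (G.Adj x) := by ext z; simp [e1]
  exact a ▸ KT.step s x h hx (b ▸ hC)

lemma ex_KT (t : ℕ) (T : Finset (Fin (t + 1))) : KT (ex t) (t + 1) (univ.disjSum T) := by
  induction T using Finset.induction_on with
  | empty =>
    refine KT.base _ ⟨?_, by simp⟩
    rintro (a | a) ha (b | b) hb h <;> simp at ha hb
    exact fun e => h (by rw [e])
  | insert j T hj ih =>
    refine step' (C := (univ.erase j.castSucc).disjSum ∅) (Sum.inr j) ih (by simpa using hj)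
      ⟨?_, by simp⟩ ?_ ?_
    · rintro (a | a) ha (b | b) hb h <;> simp at ha hb
      exact fun e => h (by rw [e])
    · rintro (a | a) <;> simp [ex]
    · rintro (a | a) <;> simp

lemma ex_deg (t : ℕ) (j : Fin (t + 1)) :
    ((ex t).neighborSet (Sum.inl j.castSucc)).ncard = t + 1 + t := by
  rw [ncard_eq]
  have : univ.filter ((ex t).Adj (Sum.inl j.castSucc)) =
      (univ.erase j.castSucc).disjSum (univ.erase j) := by
    ext (a | a) <;> simp [ex, eq_comm]
  have h2 : ((univ.erase j.castSucc).disjSum (univ.erase j)).card = t + 1 + t := by simp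
  rw [← h2]
  convert congrArg card this

/-- `g(t) = t + 1`. -/
theorem result : ∀ t : ℕ, IsGreatest {c : ℕ∞ | ∃ (k : ℕ) (V : Type) (_ : Fintype V)
    (G : SimpleGraph V), 1 ≤ k ∧ KT G k univ ∧ k + t + 2 ≤ Fintype.card V ∧
      (G.induce {v | (G.neighborSet v).ncard = k + t}).chromaticNumber = c} ((t + 1 : ℕ) : ℕ∞) := by
  intro t
  constructor
  · have hK : KT (ex t) (t + 1) univ := by simpa using ex_KT t univ
    have hn : t + 1 + t + 2 ≤ Fintype.card (Fin (t + 2) ⊕ Fin (t + 1)) := by simp; omega
    refine ⟨t + 1, _, inferInstance, ex t, by omega, hK, hn,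
      le_antisymm (upper t hK hn).chromaticNumber_le ?_⟩
    have := le_chromaticNumber_of_pairwise_adj
      (G := (ex t).induce {v | ((ex t).neighborSet v).ncard = t + 1 + t}) (n := t + 1)
      (ι := Fin (t + 1)) (by simp) (fun j => ⟨Sum.inl j.castSucc, ex_deg t j⟩)
      (fun i j h => fun e => h (Fin.castSucc_injective _ e))
    exact this
  · rintro c ⟨k, V, _, G, -, h, hn, rfl⟩
    exact (upper t h hn).chromaticNumber_le

end Pool.Agent.Results.MP_26d357_co.Exact
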